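import Pool.Agent.H671R2.UniCode

/-!
# Recognition of unimodular vertex cones is coNP-hard

The instances used are the truncated boxes `0 ≤ x ≤ a`, `∑ x ≤ t`, where `a` and `t` are positive
integers with `a_i < t < ∑ a`.  The matrix (an identity matrix and a row of ones) is totally
unimodular, all the inequalities define facets, and all the vertex cones are unimodular if and
only if no subset of the `a_i` has sum `t`.
-/

namespace Pool.Agent.Results.MP_148663_lc.ConesCoNPHard

open Pool.Agent.NPC Pool.Agent.H671R2.Uni

/-- **Recognition of unimodular vertex cones is coNP-hard.**  Every language in `coNP` is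
reducible, by a polynomial-time computable function, to the problem of deciding, for a 0-1 matrix
`A` and a rational vector `b` with positive entries, whether at each vertex `u` of
`{x : A x ≤ b, x ≥ 0}` the matrix `A(u)` is square with determinant `1` or `-1`.  Therefore there
is no polynomial-time algorithm for this problem unless `P = NP`. -/
theorem result :
    (∀ L : Set (List Bool), InCoNP L → ∃ f : List Bool → List Bool, PolyTime f ∧
      ∀ w, ∃ (m n : ℕ) (A : Fin m → Fin n → Bool) (b : Fin m → ℚ), f w = input A b ∧
        (∀ i, 0 < b i) ∧ (w ∈ L ↔ UnimodularCones A b)) ∧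
    (PolyTimeDecidable → PEqNP) := by
  refine ⟨hard, ?_⟩
  rintro ⟨D, hD, hD'⟩ L hL
  have hL' : InCoNP Lᶜ := by
    unfold InCoNP
    rwa [compl_compl]
  obtain ⟨f, hf, hfL⟩ := hard _ hL'
  have hDf : PolyTime (fun w => D (f w)) := Pool.Agent.H642R2.TMSim.polyTime_comp hD hf
  have hg : Pool.Agent.NPC.Poly (fun y : List Bool => !decide (y = [true])) :=
    Pool.Agent.NPC.Poly.not (Pool.Agent.NPC.Poly.decide_eq Pool.Agent.NPC.Poly.id
      (Pool.Agent.NPC.Poly.const _))
  refine ⟨_, polyTime_test hDf hg, fun w => ?_⟩
  obtain ⟨m, n, A, b, h1, h2, h3⟩ := hfL w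
  have h4 := hD' m n A b h2
  rw [← h1] at h4
  rw [Set.mem_compl_iff] at h3
  by_cases h5 : D (f w) = [true]
  · simp only [h5, decide_true, Bool.not_true, List.cons.injEq, Bool.false_eq_true, and_true,
      iff_false]
    exact h3.2 (h4.1 h5)
  · simp only [h5, decide_false, Bool.not_false, iff_true]
    by_contra h6
    exact h5 (h4.2 (h3.1 h6))

end Pool.Agent.Results.MP_148663_lc.ConesCoNPHard
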